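import Pool.Agent.Helper94.ST.Final

/-!
# The conjugacy classes of a Sato-Tate group are determined by traces of endomorphisms

Let `A` be an abelian surface over a number field `F`, `E = End(A over the algebraic closure) ⊗ ℂ`,
acting on `V = V_ℓ(A) ⊗ ℂ`, with the Weil pairing on `V`.  The algebra `E` is stable under the Rosati
involution and, for a suitable positive definite hermitian form, under the adjoint.  The identity
component `N` of the Sato-Tate group `G = ST_A` is the group of the elements of `USp(4)` which commute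
with `E`, and `G` acts on `E` by conjugation (through the Galois group of the smallest field over which
all endomorphisms are defined): this is the description of the algebraic Sato-Tate group as the twisted
Lefschetz group (Banaszak-Kedlaya, Fité-Kedlaya-Rotger-Sutherland).

The class `s(v)` is the class of an element `c ∈ G` which is conjugate to the normalised Frobenius
element `x = g_v` by an element of `G^1`; after a conjugation of `c` in `G` one may take this element
in the identity component, that is, in the centralizer of `E` in `Sp(4, ℂ)`.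

We show that two such elements `x`, `x'` (for instance those for two primes `ℓ` and two isomorphisms
`ι`) have the same class, even up to conjugation by `N` only, if and only if they act in the same way
on `E` and `tr(α x^k) = tr(α x'^k)` for `k = 1, 2` and all `α ∈ E` which commute with `x`.  For the
Frobenius elements these traces are traces of `α Frob_v^k`, which do not depend on `ℓ`.

The theorem holds for `USp(2g)` and all such algebras `E`, with `1 ≤ k ≤ g`.
-/

set_option autoImplicit false

namespace Pool.Agent.Results.MP_6dc561_nt.ClassesFromTraces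

open Matrix

/-- The complex matrices of size `2g`. -/
abbrev Mat (g : ℕ) := Matrix (Fin g ⊕ Fin g) (Fin g ⊕ Fin g) ℂ

/-- The group `U(2g)` of the unitary matrices of size `2g`. -/
abbrev U (g : ℕ) := Matrix.unitaryGroup (Fin g ⊕ Fin g) ℂ

/-- The symplectic group `Sp(2g, ℂ)`, the matrices `A` with `A J Aᵀ = J` (as a submonoid of the
matrices). -/
abbrev Sp (g : ℕ) : Submonoid (Mat g) := symplecticGroup (Fin g) ℂ

/-- `u` belongs to the compact group `USp(2g)` and commutes with all elements of `E`. -/
def CommutesWith {g : ℕ} (E : Subalgebra ℂ (Mat g)) (u : U g) : Prop :=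
  (u : Mat g) ∈ Sp g ∧ ∀ α ∈ E, (u : Mat g) * α = α * (u : Mat g)

/-- `G` is a group of Sato-Tate type for the algebra `E`: the algebra `E` is stable under the
conjugate transpose and under the adjoint `J⁻¹ αᵀ J` of the symplectic form, `G` is a subgroup
of `USp(2g)` which acts on `E` by conjugation, and `G` contains all elements of `USp(2g)` which commute
with `E`, with finite index: there are finitely many elements `c` of `G` such that every element of
`G` is the product of one of them and an element commuting with `E`. -/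
structure IsSatoTate {g : ℕ} (E : Subalgebra ℂ (Mat g)) (G : Subgroup (U g)) : Prop where
  star : ∀ α ∈ E, αᴴ ∈ E
  adjoint : ∀ α ∈ E, (J (Fin g) ℂ)⁻¹ * αᵀ * J (Fin g) ℂ ∈ E
  symplectic : ∀ c ∈ G, (c : Mat g) ∈ Sp g
  action : ∀ c ∈ G, ∀ α ∈ E, (c : Mat g) * α * (c : Mat g)⁻¹ ∈ E
  contains : ∀ u : U g, CommutesWith E u → u ∈ G
  finite : ∃ S : Finset (U g), ∀ c ∈ G, ∃ s ∈ S, s ∈ G ∧ CommutesWith E (s⁻¹ * c)

theorem IsSatoTate.isST {g : ℕ} {E : Subalgebra ℂ (Mat g)} {G : Subgroup (U g)}
    (h : IsSatoTate E G) : Pool.Agent.Helper94.ST.IsST E G := by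
  refine ⟨h.star, h.adjoint, h.symplectic, h.action, fun u hu => h.contains u hu, ?_⟩
  obtain ⟨S, hS⟩ := h.finite
  classical
  -- the cosets are represented by the elements of `S`
  have hsurj : Function.Surjective (fun s : {s // s ∈ S ∧ s ∈ G} =>
      ((⟨s.1, s.2.2⟩ : G) : G ⧸ (Pool.Agent.Helper94.ST.lef E).subgroupOf G)) := by
    intro τ
    obtain ⟨c, rfl⟩ := QuotientGroup.mk_surjective τ
    obtain ⟨s, hs, hsG, hc⟩ := hS c c.2
    exact ⟨⟨s, hs, hsG⟩, QuotientGroup.eq.2 hc⟩
  have : Finite {s // s ∈ S ∧ s ∈ G} :=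
    Finite.of_injective (fun s : {s // s ∈ S ∧ s ∈ G} => (⟨s.1, s.2.1⟩ : {s // s ∈ S})) (by
      intro a b hab
      exact Subtype.ext (congrArg (fun z : {s // s ∈ S} => z.1) hab))
  have hfin : Finite (G ⧸ (Pool.Agent.Helper94.ST.lef E).subgroupOf G) := Finite.of_surjective _ hsurj
  exact Subgroup.index_ne_zero_of_finite

/-- **Sato-Tate classes are determined by traces.**  Let `G` be a group of Sato-Tate type for the
algebra `E ⊆ M_{2g}(ℂ)`, and let `x`, `x'` be matrices which are conjugate to the elements `c`, `c'`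
of `G` by elements `a`, `a'` of `Sp(2g, ℂ)` commuting with `E`.  The following are equivalent:
* `c` and `c'` are conjugate by an element of `USp(2g)` which commutes with `E` (and hence
conjugate in `G`);
* `x` and `x'` are conjugate by an element of `Sp(2g, ℂ)` which commutes with `E`;
* `x⁻¹ x'` commutes with `E`, and `tr(α x^k) = tr(α x'^k)` for `1 ≤ k ≤ g` and all elements `α` of `E`
which commute with `x`. -/
theorem result {g : ℕ} (E : Subalgebra ℂ (Mat g)) (G : Subgroup (U g)) (hG : IsSatoTate E G)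
    {c c' : U g} (hc : c ∈ G) (hc' : c' ∈ G) {a a' x x' : Mat g}
    (ha : a ∈ Sp g) (ha' : a' ∈ Sp g) (haE : ∀ α ∈ E, a * α = α * a)
    (haE' : ∀ α ∈ E, a' * α = α * a') (hx : x = a * c * a⁻¹) (hx' : x' = a' * c' * a'⁻¹) :
    List.TFAE [
      ∃ u : U g, CommutesWith E u ∧ c' = u * c * u⁻¹,
      ∃ l ∈ Sp g, (∀ α ∈ E, l * α = α * l) ∧ x' = l * x * l⁻¹,
      (∀ α ∈ E, x⁻¹ * x' * α = α * (x⁻¹ * x')) ∧
        ∀ α ∈ E, α * x = x * α → ∀ k : ℕ, 1 ≤ k → k ≤ g →
          trace (α * x ^ k) = trace (α * x' ^ k)] := by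
  have hsu : ∀ m ∈ symplecticGroup (Fin g) ℂ, m * m⁻¹ = 1 ∧ m⁻¹ * m = 1 := by
    intro m hm
    have hd : IsUnit m.det := by rw [SymplecticGroup.det_eq_one hm]; exact isUnit_one
    exact ⟨mul_nonsing_inv _ hd, nonsing_inv_mul _ hd⟩
  have e1 : x * a = a * c := by rw [hx, mul_assoc, (hsu a ha).2, mul_one]
  have e2 : x' * a' = a' * c' := by rw [hx', mul_assoc, (hsu a' ha').2, mul_one]
  have key := Pool.Agent.Helper94.ST.classes hG.isST hc hc' ha ha' haE haE' e1 e2
  have h12 := key.out 0 1
  have h13 := key.out 0 2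
  have g2 : (∃ l ∈ Sp g, (∀ α ∈ E, l * α = α * l) ∧ x' = l * x * l⁻¹) ↔
      ∃ l ∈ symplecticGroup (Fin g) ℂ, (∀ α ∈ E, l * α = α * l) ∧ x' * l = l * x := by
    constructor
    · rintro ⟨l, hl, hlc, h1⟩
      exact ⟨l, hl, hlc, by rw [h1, mul_assoc, (hsu l hl).2, mul_one]⟩
    · rintro ⟨l, hl, hlc, h1⟩
      exact ⟨l, hl, hlc, by rw [← h1, mul_assoc, (hsu l hl).1, mul_one]⟩
  have g3 : ((∀ α ∈ E, x⁻¹ * x' * α = α * (x⁻¹ * x')) ∧
        ∀ α ∈ E, α * x = x * α → ∀ k : ℕ, 1 ≤ k → k ≤ g →
          trace (α * x ^ k) = trace (α * x' ^ k)) ↔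
      ((∀ α ∈ E, x⁻¹ * x' * α = α * (x⁻¹ * x')) ∧
        ∀ α ∈ E, x * α = α * x → ∀ k : ℕ, 1 ≤ k → k ≤ g →
          trace (α * x ^ k) = trace (α * x' ^ k)) := by
    constructor
    · rintro ⟨h1, h2⟩
      exact ⟨h1, fun α hα h3 => h2 α hα h3.symm⟩
    · rintro ⟨h1, h2⟩
      exact ⟨h1, fun α hα h3 => h2 α hα h3.symm⟩
  tfae_have 1 ↔ 2 := by
    rw [g2]
    exact h12
  tfae_have 1 ↔ 3 := by
    rw [g3]
    exact h13
  tfae_finish

end Pool.Agent.Results.MP_6dc561_nt.ClassesFromTraces
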