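import Pool.Agent.Helper94.ST.Haar

/-!
# The Sato-Tate conjecture and the moments of traces of endomorphisms

Let `A` be an abelian surface over a number field `F` with the Sato-Tate group `G = ST_A`, and let
`E = End(A over the algebraic closure) ⊗ ℂ ⊆ M_4(ℂ)`.  The group `G` acts on `E` by conjugation, and the
identity component `N` of `G` consists of the elements of `USp(4)` which commute with `E`; the quotient
`G / N` is the Galois group of `K / F`, where `K` is the smallest field over which all endomorphisms
are defined (twisted Lefschetz group, Banaszak-Kedlaya, Fité-Kedlaya-Rotger-Sutherland).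

The characteristic polynomial of `s(v)` does not determine the class `s(v)`.  We prove a criterion for
the equidistribution of the classes `s(v)` in the space of all conjugacy classes of `G`, in terms of
explicit moments: the mean values of products of the traces `tr(α s(v)^k)`, `k = 1, 2`, over the primes
for which the Frobenius element is a given one, where `α` runs over the endomorphisms which commute with
it.  (For a conjugacy class one has to average over conjugation by `G`; this is the average over
`G / N`, that is, over the places of `K` above `v`.)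

The criterion holds for `USp(2g)` and all such algebras `E`, with `1 ≤ k ≤ g`.
-/

set_option autoImplicit false

namespace Pool.Agent.Results.MP_6dc561_nt.TraceMoments

open Matrix MeasureTheory Filter Topology

/-- The complex matrices of size `2g`. -/
abbrev Mat (g : ℕ) := Matrix (Fin g ⊕ Fin g) (Fin g ⊕ Fin g) ℂ

/-- The group `U(2g)` of the unitary matrices of size `2g`. -/
abbrev U (g : ℕ) := Matrix.unitaryGroup (Fin g ⊕ Fin g) ℂ

/-- `u` belongs to the compact group `USp(2g)` and commutes with all elements of `E`. -/
def CommutesWith {g : ℕ} (E : Subalgebra ℂ (Mat g)) (u : U g) : Prop :=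
  (u : Mat g) ∈ symplecticGroup (Fin g) ℂ ∧ ∀ α ∈ E, (u : Mat g) * α = α * (u : Mat g)

/-- `G` is a group of Sato-Tate type for the algebra `E`: the algebra `E` is stable under the
conjugate transpose and under the adjoint `J⁻¹ αᵀ J` of the symplectic form, `G` is a subgroup
of `USp(2g)` which acts on `E` by conjugation, and `G` contains the group `N` of all elements of
`USp(2g)` which commute with `E`, with finite index: there is a finite set `S` such that every element
of `G` lies in a coset `s N` with `s` in both `S` and `G`. -/
structure IsSatoTate {g : ℕ} (E : Subalgebra ℂ (Mat g)) (G : Subgroup (U g)) : Prop where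
  star : ∀ α ∈ E, αᴴ ∈ E
  adjoint : ∀ α ∈ E, (J (Fin g) ℂ)⁻¹ * αᵀ * J (Fin g) ℂ ∈ E
  symplectic : ∀ c ∈ G, (c : Mat g) ∈ symplecticGroup (Fin g) ℂ
  action : ∀ c ∈ G, ∀ α ∈ E, (c : Mat g) * α * (c : Mat g)⁻¹ ∈ E
  contains : ∀ u : U g, CommutesWith E u → u ∈ G
  finite : ∃ S : Finset (U g), ∀ c ∈ G, ∃ s ∈ S, s ∈ G ∧ CommutesWith E (s⁻¹ * c)

/-- The mean value of `f` over the `v` with `q v ≤ x`. -/
noncomputable def mean {V : Type} (q : V → ℝ) (f : V → ℂ) (x : ℝ) : ℂ :=
  (∑ᶠ v ∈ {v | q v ≤ x}, f v) / Nat.card {v | q v ≤ x}

/-- The conjugacy classes of the elements `s v` of the group `H`, ordered by `q v`, are equidistributed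
with respect to the image of the measure `μ`: for every continuous class function `f` the mean values of
`f (s v)` converge to the integral of `f`. -/
def Equidistributed {H : Type} [Group H] [TopologicalSpace H] [MeasurableSpace H] (μ : Measure H)
    {V : Type} (q : V → ℝ) (s : V → H) : Prop :=
  ∀ f : H → ℂ, Continuous f → (∀ x y, f (y * x * y⁻¹) = f x) →
    Tendsto (mean q fun v => f (s v)) atTop (𝓝 (∫ x, f x ∂μ))

/-- The function `f`, made a class function by averaging over conjugation:
`x ↦ ∫ f (y x y⁻¹) dμ(y)`. -/
noncomputable def classMean {H : Type} [Group H] [MeasurableSpace H] (μ : Measure H) (f : H → ℂ)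
    (x : H) : ℂ :=
  ∫ y, f (y * x * y⁻¹) ∂μ

open Classical in
/-- The moment function: `x ↦ ∏ tr(α x^k)`, the product over the pairs `(α, k)` in the list `L`,
if `c⁻¹ x` is an element of `USp(2g)` which commutes with `E`, that is, on the coset `c N`, and `0`
outside this coset. -/
noncomputable def moment {g : ℕ} (E : Subalgebra ℂ (Mat g)) (c : U g) (L : List (Mat g × ℕ))
    (x : U g) : ℂ :=
  if CommutesWith E (c⁻¹ * x) then (L.map fun p => trace (p.1 * (x : Mat g) ^ p.2)).prod else 0

/-- In all pairs `(α, k)` of the list, `1 ≤ k ≤ g` and `α` is an element of `E` which commutes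
with `c`. -/
def Admissible {g : ℕ} (E : Subalgebra ℂ (Mat g)) (c : U g) (L : List (Mat g × ℕ)) : Prop :=
  ∀ p ∈ L, p.1 ∈ E ∧ (c : Mat g) * p.1 = p.1 * c ∧ 1 ≤ p.2 ∧ p.2 ≤ g

theorem IsSatoTate.isST {g : ℕ} {E : Subalgebra ℂ (Mat g)} {G : Subgroup (U g)}
    (h : IsSatoTate E G) : Pool.Agent.Helper94.ST.IsST E G := by
  refine ⟨h.star, h.adjoint, h.symplectic, h.action, fun u hu => h.contains u hu, ?_⟩
  obtain ⟨S, hS⟩ := h.finite
  classical
  -- the cosets are represented by the elements of `S`
  have hsurj : Function.Surjective (fun s : {s // s ∈ S ∧ s ∈ G} =>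
      ((⟨s.1, s.2.2⟩ : G) : G ⧸ (Pool.Agent.Helper94.ST.lef E).subgroupOf G)) := by
    intro τ
    obtain ⟨c, rfl⟩ := QuotientGroup.mk_surjective τ
    obtain ⟨s, hs, hsG, hc⟩ := hS c c.2
    exact ⟨⟨s, hs, hsG⟩, QuotientGroup.eq.2 hc⟩
  have : Finite {s // s ∈ S ∧ s ∈ G} :=
    Finite.of_injective (fun s : {s // s ∈ S ∧ s ∈ G} => (⟨s.1, s.2.1⟩ : {s // s ∈ S})) (by
      intro a b hab
      exact Subtype.ext (congrArg (fun z : {s // s ∈ S} => z.1) hab))
  have hfin : Finite (G ⧸ (Pool.Agent.Helper94.ST.lef E).subgroupOf G) := Finite.of_surjective _ hsurj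
  exact Subgroup.index_ne_zero_of_finite

/-- **A criterion for the equidistribution of Sato-Tate classes.**  Let `G` be a group of Sato-Tate
type for the algebra `E ⊆ M_{2g}(ℂ)` with the normalised Haar measure `μ`, and let `s v` be elements
of `G`, ordered by `q v`.  Their conjugacy classes in `G` are equidistributed if and only if for all
`c ∈ G` and all finite lists of pairs `(α, k)`, where `1 ≤ k ≤ g` and `α ∈ E` commutes with `c`, the mean
values over the `s v` of the moment function (the product of the `tr(α x^k)` on the coset `c N`, made a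
class function by averaging over conjugation) converge to its integral. -/
theorem result {g : ℕ} (E : Subalgebra ℂ (Mat g)) (G : Subgroup (U g)) (hG : IsSatoTate E G)
    [MeasurableSpace G] [BorelSpace G] (μ : Measure G) [μ.IsHaarMeasure] [IsProbabilityMeasure μ]
    {V : Type} (q : V → ℝ) (hq : ∀ x, {v | q v ≤ x}.Finite) (s : V → G) :
    Equidistributed μ q s ↔
      ∀ (c : G) (L : List (Mat g × ℕ)), Admissible E c L →
        Tendsto (mean q fun v => classMean μ (fun x => moment E c L x) (s v)) atTop
          (𝓝 (∫ x : G, moment E c L x ∂μ)) :=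
  Pool.Agent.Helper94.ST.criterion' hG.isST μ q hq s

end Pool.Agent.Results.MP_6dc561_nt.TraceMoments
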